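import Pool.Agent.W76.MO.Stmts

/-!
# MP_a187e6_nt, task HA: basic lemmas
-/

set_option autoImplicit false

namespace Pool.Agent.W326.MO

open Finset Filter Topology Pool.Agent.W76.MO
open scoped Classical

theorem hh_pos (δ : ℝ) (i : ℕ) : 0 < hh δ i := by unfold hh; positivity

theorem hh_le {δ : ℝ} (hδ : δ < 1 / 2) (i : ℕ) : (hh δ i : ℝ) ≤ (2 : ℝ) ^ ((1 / 2 - δ) * i) := by
  unfold hh
  push_cast
  rw [← Real.rpow_natCast]
  apply Real.rpow_le_rpow_of_exponent_le (by norm_num)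
  apply Nat.floor_le
  have : (0 : ℝ) ≤ i := Nat.cast_nonneg i
  nlinarith

theorem le_hh (δ : ℝ) (i : ℕ) : (2 : ℝ) ^ ((1 / 2 - δ) * i - 1) ≤ (hh δ i : ℝ) := by
  unfold hh
  push_cast
  rw [← Real.rpow_natCast]
  apply Real.rpow_le_rpow_of_exponent_le (by norm_num)
  have := Nat.lt_floor_add_one ((1 / 2 - δ) * (i : ℝ))
  linarith

theorem mem_cell {δ : ℝ} {i k n : ℕ} :
    n ∈ cell δ i k ↔ 2 ^ i + k * hh δ i < n ∧ n ≤ 2 ^ i + (k + 1) * hh δ i := by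
  unfold cell; rw [Finset.mem_Ioc]

theorem cell_bounds {δ : ℝ} {i k n : ℕ} (hk : k < nc δ i) (hn : n ∈ cell δ i k) :
    2 ^ i < n ∧ n ≤ 2 ^ (i + 1) := by
  rw [mem_cell] at hn
  have h1 : (k + 1) * hh δ i ≤ 2 ^ i := by
    unfold nc at hk
    calc (k + 1) * hh δ i ≤ (2 ^ i / hh δ i) * hh δ i := Nat.mul_le_mul_right _ hk
      _ ≤ 2 ^ i := Nat.div_mul_le_self _ _
  refine ⟨by omega, ?_⟩
  rw [pow_succ]; omega

theorem cell_disj {δ : ℝ} {i k k' n : ℕ} (h : n ∈ cell δ i k) (h' : n ∈ cell δ i k') : k = k' := by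
  rw [mem_cell] at h h'
  by_contra hne
  rcases Nat.lt_or_gt_of_ne hne with hlt | hlt
  · have : (k + 1) * hh δ i ≤ k' * hh δ i := Nat.mul_le_mul_right _ hlt
    omega
  · have : (k' + 1) * hh δ i ≤ k * hh δ i := Nat.mul_le_mul_right _ hlt
    omega

theorem scale_unique {i i' n : ℕ} (h : 2 ^ i < n ∧ n ≤ 2 ^ (i + 1))
    (h' : 2 ^ i' < n ∧ n ≤ 2 ^ (i' + 1)) : i = i' := by
  have h1 : i < i' + 1 := by
    rw [← Nat.pow_lt_pow_iff_right (a := 2) (by norm_num)]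
    omega
  have h2 : i' < i + 1 := by
    rw [← Nat.pow_lt_pow_iff_right (a := 2) (by norm_num)]
    omega
  omega

/-- the largest prime factor is a prime factor -/
theorem lp_mem {n : ℕ} (h : lp n ≠ 0) : lp n ∈ n.primeFactors := by
  unfold Pool.Agent.W76.MO.lp at *
  have hne : n.primeFactors.Nonempty := by
    by_contra hc
    rw [Finset.not_nonempty_iff_eq_empty] at hc
    rw [hc] at h
    simp at h
  obtain ⟨p, hp, hp'⟩ := Finset.exists_mem_eq_sup n.primeFactors hne id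
  rw [hp']
  exact hp

section env
variable {E : Env}

theorem mem_host {j i k n : ℕ} (h : n ∈ E.Host j i k) : n ∈ cell E.δ i k ∧
    (2 : ℝ) ^ ((1 / 2 + E.τ) * i) ≤ lp n ∧ lp n < n ∧ Squarefree n ∧
    Rough ((2 : ℝ) ^ (E.τ * i)) n ∧ ¬ E.U j (lp n) ∧
    ∀ p : ℕ, p.Prime → p ∣ n / lp n → ¬ E.U j p ∧ ¬ E.H j p := by
  unfold Env.Host at h
  rw [Finset.mem_filter] at h
  exact h

theorem host_lp {j i k n : ℕ} (h : n ∈ E.Host j i k) : (lp n).Prime ∧ lp n ∣ n := by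
  have h1 := mem_host h
  have h2 : (0 : ℝ) < (2 : ℝ) ^ ((1 / 2 + E.τ) * i) := by positivity
  have h3 : (0 : ℝ) < lp n := lt_of_lt_of_le h2 h1.2.1
  have h4 : lp n ≠ 0 := by
    intro h0; rw [h0] at h3; simp at h3
  have h5 := lp_mem h4
  exact ⟨Nat.prime_of_mem_primeFactors h5, Nat.dvd_of_mem_primeFactors h5⟩

theorem g_zero {j p : ℕ} (hgu : E.gu j p ≠ 0 → E.U j p) (hgh : E.gh j p ≠ 0 → E.H j p)
    (hU : ¬ E.U j p) (hH : ¬ E.H j p) : E.g j p = 0 := by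
  unfold Env.g
  have h1 : E.gu j p = 0 := by
    by_contra hc; exact hU (hgu hc)
  have h2 : E.gh j p = 0 := by
    by_contra hc; exact hH (hgh hc)
  rw [h1, h2, add_zero]

theorem g_nonneg {j p : ℕ} (hgu : 0 ≤ E.gu j p) (hgh : 0 ≤ E.gh j p) : 0 ≤ E.g j p := by
  unfold Env.g; linarith

theorem E2_nonneg {j : ℕ} (hgu : ∀ p, 0 ≤ E.gu j p) (hgh : ∀ p, 0 ≤ E.gh j p) (n : ℕ) :
    0 ≤ E.E2 j n := by
  unfold Env.E2
  apply Finset.prod_nonneg
  intro p _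
  have := g_nonneg (hgu p) (hgh p)
  positivity

theorem E2_one {j m : ℕ} (hgu : ∀ p, E.gu j p ≠ 0 → E.U j p) (hgh : ∀ p, E.gh j p ≠ 0 → E.H j p)
    (hm : ∀ p : ℕ, p.Prime → p ∣ m → ¬ E.U j p ∧ ¬ E.H j p) : E.E2 j m = 1 := by
  unfold Env.E2
  apply Finset.prod_eq_one
  intro p hp
  have h1 := hm p (Nat.prime_of_mem_primeFactors hp) (Nat.dvd_of_mem_primeFactors hp)
  rw [g_zero (hgu p) (hgh p) h1.1 h1.2]
  simp

theorem E2_mul {j m a : ℕ} (h : Nat.Coprime m a) : E.E2 j (m * a) = E.E2 j m * E.E2 j a := by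
  unfold Env.E2
  rw [Nat.Coprime.primeFactors_mul h, Finset.prod_union (Nat.Coprime.disjoint_primeFactors h)]

/-- the value of the term of a divisible pair -/
theorem term_eq {j i' k' n₁ n : ℕ} (hgu : ∀ p, E.gu j p ≠ 0 → E.U j p)
    (hgh : ∀ p, E.gh j p ≠ 0 → E.H j p) (hn₁ : n₁ ∈ E.Host j i' k') (hn : Squarefree n)
    (hd : n₁ ∣ n) :
    ((n₁ : ℝ) / n) * E.E2 j (n / lp n₁) = E.E2 j (n / n₁) / ((n / n₁ : ℕ) : ℝ) := by
  obtain ⟨a, rfl⟩ := hd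
  obtain ⟨hq, hqd⟩ := host_lp hn₁
  have h1 := mem_host hn₁
  obtain ⟨m, hm⟩ := hqd
  set q := lp n₁ with hqdef
  have hq0 : 0 < q := hq.pos
  have hsq : Squarefree n₁ := h1.2.2.2.1
  have hn₁0 : 0 < n₁ := Nat.pos_of_ne_zero hsq.ne_zero
  have ha0 : 0 < a := by
    rcases Nat.eq_zero_or_pos a with h | h
    · rw [h, mul_zero] at hn; exact absurd rfl hn.ne_zero
    · exact h
  have hmq : n₁ / q = m := by
    rw [hm]; exact Nat.mul_div_cancel_left m hq0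
  have e1 : n₁ * a / q = m * a := by
    rw [hm, mul_assoc]; exact Nat.mul_div_cancel_left _ hq0
  have e2 : n₁ * a / n₁ = a := Nat.mul_div_cancel_left _ hn₁0
  have hcop : Nat.Coprime n₁ a := Nat.coprime_of_squarefree_mul hn
  have hcop' : Nat.Coprime m a := Nat.Coprime.coprime_dvd_left ⟨q, by rw [hm]; ring⟩ hcop
  rw [e1, e2, E2_mul hcop', E2_one hgu hgh (by rw [← hmq]; exact h1.2.2.2.2.2.2), one_mul]
  push_cast
  have : (n₁ : ℝ) ≠ 0 := by positivity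
  have : (a : ℝ) ≠ 0 := by positivity
  field_simp

end env

end Pool.Agent.W326.MO
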