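import Pool.Agent.W326.MO.HA1

/-!
# MP_a187e6_nt, task HA: the number of hosts whose multiple lies in a cell
-/

set_option autoImplicit false

namespace Pool.Agent.W326.MO

open Finset Filter Topology Pool.Agent.W76.MO
open scoped Classical

variable (E : Env)

theorem count_le {j i k a i' : ℕ} (hi' : E.i₁ ≤ i') (ha : 1 ≤ a)
    (hL : (2 : ℝ) ^ (E.τ / 4 * i') ≤ ((hh E.δ i / a + 1 : ℕ) : ℝ)) :
    ((∑ k' ∈ E.Bad i', ((E.Host j i' k').filter (fun n₁ => a * n₁ ∈ cell E.δ i k)).card : ℕ) : ℝ)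
      ≤ E.CB * ((hh E.δ i / a + 1 : ℕ) : ℝ) / i' := by
  refine le_trans ?_ (E.btr i' hi' ((2 ^ i + k * hh E.δ i) / a) (hh E.δ i / a + 1) hL)
  rw [Nat.cast_le, ← Finset.card_biUnion]
  · apply Finset.card_le_card
    intro n₁ hn
    rw [Finset.mem_biUnion] at hn
    obtain ⟨k', hk', hn⟩ := hn
    rw [Finset.mem_filter] at hn
    obtain ⟨hn, hc⟩ := hn
    have hr := (mem_host hn).2.2.2.2.1
    rw [mem_cell] at hc
    rw [Finset.mem_filter, Finset.mem_Ioc]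
    refine ⟨⟨?_, ?_⟩, hr⟩
    · rw [Nat.div_lt_iff_lt_mul (by omega)]
      linarith [hc.1, mul_comm a n₁]
    · have h1 : n₁ ≤ (2 ^ i + (k + 1) * hh E.δ i) / a := by
        rw [Nat.le_div_iff_mul_le (by omega)]
        linarith [hc.2, mul_comm a n₁]
      have h2 : (2 ^ i + (k + 1) * hh E.δ i) / a ≤
          (2 ^ i + k * hh E.δ i) / a + (hh E.δ i / a + 1) := by
        have e : 2 ^ i + (k + 1) * hh E.δ i = (2 ^ i + k * hh E.δ i) + hh E.δ i := by ring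
        rw [e, Nat.add_div (by omega)]
        split_ifs <;> omega
      omega
  · intro k₁ _ k₂ _ hne
    rw [Function.onFun, Finset.disjoint_left]
    intro n₁ h1 h2
    rw [Finset.mem_filter] at h1 h2
    exact hne (cell_disj (mem_host h1.1).1 (mem_host h2.1).1)

/-- the two admissible scales -/
theorem scales {j i k a i' k' n₁ : ℕ} (hk : k < nc E.δ i) (hk' : k' ∈ E.Bad i') (ha : 1 ≤ a)
    (hn : n₁ ∈ E.Host j i' k') (hc : a * n₁ ∈ cell E.δ i k) :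
    2 ^ i < a * 2 ^ (i' + 1) ∧ a * 2 ^ i' < 2 ^ (i + 1) := by
  have h1 := cell_bounds hk hc
  have hk2 : k' < nc E.δ i' := by
    unfold Env.Bad at hk'
    rw [Finset.mem_filter, Finset.mem_range] at hk'
    exact hk'.1
  have h2 := cell_bounds hk2 (mem_host hn).1
  constructor
  · exact lt_of_lt_of_le h1.1 (Nat.mul_le_mul_left _ h2.2)
  · refine lt_of_lt_of_le ?_ h1.2
    exact Nat.mul_lt_mul_of_pos_left h2.1 (by omega)

theorem two_scales {i a i' : ℕ} (ha : 1 ≤ a) (h1 : 2 ^ i < a * 2 ^ (i' + 1))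
    (h2 : a * 2 ^ i' < 2 ^ (i + 1)) :
    i' = i - Nat.log 2 a ∨ i' = i - Nat.log 2 a - 1 := by
  have hl : 2 ^ (Nat.log 2 a) ≤ a := Nat.pow_log_le_self 2 (by omega)
  have hu : a < 2 ^ (Nat.log 2 a + 1) := Nat.lt_pow_succ_log_self (by norm_num) a
  have h3 : Nat.log 2 a + i' < i + 1 := by
    rw [← Nat.pow_lt_pow_iff_right (a := 2) (by norm_num), pow_add]
    exact lt_of_le_of_lt (Nat.mul_le_mul_right _ hl) h2
  have h4 : i < (Nat.log 2 a + 1) + (i' + 1) := by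
    rw [← Nat.pow_lt_pow_iff_right (a := 2) (by norm_num), pow_add]
    exact lt_of_lt_of_le h1 (Nat.mul_le_mul_right _ hu.le)
  omega

/-- the bound for one admissible scale -/
theorem one_scale {i a i' : ℕ} (ha : 1 ≤ a) (hi : 10 ≤ i) (h1 : 2 ^ i < a * 2 ^ (i' + 1))
    (h2 : a * 2 ^ i' < 2 ^ (i + 1)) (hi' : (1 - E.τ) * i ≤ i') :
    (2 : ℝ) ^ (E.τ / 4 * i') ≤ ((hh E.δ i / a + 1 : ℕ) : ℝ) ∧
    E.w i' * (2 * i' / (E.cH * hh E.δ i')) * (E.CB * ((hh E.δ i / a + 1 : ℕ) : ℝ) / i') ≤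
      2 ^ 44 * E.CB / E.cH * E.w i * (a : ℝ) ^ (-E.δ / 2) := by
  have hτ := E.hτ
  have hτ' := E.hτ'
  have hδ := E.hδ
  have hδ' := E.hδ'
  have hcH := E.hcH
  have hCB := E.hCB
  have haR : (1 : ℝ) ≤ a := by exact_mod_cast ha
  have hiR : (10 : ℝ) ≤ i := by exact_mod_cast hi
  have hi'i : i' ≤ i := by
    have : 2 ^ i' < 2 ^ (i + 1) := lt_of_le_of_lt (Nat.le_mul_of_pos_left _ (by omega)) h2
    rw [Nat.pow_lt_pow_iff_right (a := 2) (by norm_num)] at this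
    omega
  have hi'R : (i' : ℝ) ≤ i := by exact_mod_cast hi'i
  have hi'9 : (9 : ℝ) ≤ i' := by nlinarith
  have hhalf : (i : ℝ) / 2 ≤ i' := by nlinarith
  have h1R : (2 : ℝ) ^ (i : ℝ) < a * 2 ^ ((i' : ℝ) + 1) := by
    have : ((2 ^ i : ℕ) : ℝ) < ((a * 2 ^ (i' + 1) : ℕ) : ℝ) := by exact_mod_cast h1
    push_cast at this
    rw [Real.rpow_natCast, Real.rpow_add (by norm_num), Real.rpow_natCast, Real.rpow_one]
    rw [pow_succ] at this
    exact this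
  have h2R : a * (2 : ℝ) ^ (i' : ℝ) < 2 ^ ((i : ℝ) + 1) := by
    have : ((a * 2 ^ i' : ℕ) : ℝ) < ((2 ^ (i + 1) : ℕ) : ℝ) := by exact_mod_cast h2
    push_cast at this
    rw [Real.rpow_natCast, Real.rpow_add (by norm_num), Real.rpow_natCast, Real.rpow_one]
    rw [pow_succ] at this
    exact this
  -- a ≤ 2^(1+τ i)
  have ha2 : (a : ℝ) ≤ 2 ^ (1 + E.τ * i) := by
    have e : (2 : ℝ) ^ ((i : ℝ) + 1) = 2 ^ ((i : ℝ) + 1 - i') * 2 ^ (i' : ℝ) := by
      rw [← Real.rpow_add (by norm_num)]; congr 1; ring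
    rw [e] at h2R
    have hp : (0 : ℝ) < 2 ^ (i' : ℝ) := by positivity
    have h3 : (a : ℝ) < 2 ^ ((i : ℝ) + 1 - i') := lt_of_mul_lt_mul_right h2R hp.le
    refine h3.le.trans ?_
    apply Real.rpow_le_rpow_of_exponent_le (by norm_num)
    nlinarith
  have hh1 := le_hh E.δ i
  -- h/a is at least one
  have hha : (2 : ℝ) ^ ((1 / 2 - E.δ - E.τ) * i - 2) ≤ (hh E.δ i : ℝ) / a := by
    rw [le_div_iff₀ (by positivity)]
    refine le_trans ?_ hh1
    calc (2 : ℝ) ^ ((1 / 2 - E.δ - E.τ) * i - 2) * a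
        ≤ (2 : ℝ) ^ ((1 / 2 - E.δ - E.τ) * i - 2) * 2 ^ (1 + E.τ * i) :=
          mul_le_mul_of_nonneg_left ha2 (by positivity)
      _ = (2 : ℝ) ^ ((1 / 2 - E.δ) * i - 1) := by
          rw [← Real.rpow_add (by norm_num)]; congr 1; ring
  have hL : (hh E.δ i : ℝ) / a ≤ ((hh E.δ i / a + 1 : ℕ) : ℝ) := by
    rw [div_le_iff₀ (by positivity)]
    have := Nat.lt_succ_floor ((hh E.δ i : ℝ) / a)
    have h4 : hh E.δ i ≤ (hh E.δ i / a + 1) * a := by
      have := Nat.lt_div_mul_add (a := hh E.δ i) (b := a) (by omega)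
      nlinarith
    exact_mod_cast h4
  have hL2 : ((hh E.δ i / a + 1 : ℕ) : ℝ) ≤ 2 * ((hh E.δ i : ℝ) / a) := by
    have h5 : ((hh E.δ i / a : ℕ) : ℝ) ≤ (hh E.δ i : ℝ) / a := Nat.cast_div_le
    have h6 : (1 : ℝ) ≤ (hh E.δ i : ℝ) / a := by
      refine le_trans ?_ hha
      apply Real.one_le_rpow (by norm_num)
      nlinarith
    push_cast
    linarith
  refine ⟨?_, ?_⟩
  · refine le_trans ?_ (hha.trans hL)
    apply Real.rpow_le_rpow_of_exponent_le (by norm_num)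
    nlinarith
  · have hhi' := le_hh E.δ i'
    have hhi := hh_le (δ := E.δ) (by linarith) i
    have hh0 : (0 : ℝ) < hh E.δ i' := by exact_mod_cast hh_pos E.δ i'
    have hw0 : 0 < E.w i' := by unfold Env.w; positivity
    have hw00 : 0 < E.w i := by unfold Env.w; positivity
    -- 2^(-(1-δ/2) i') ≤ 2 a^(1-δ/2) 2^(-(1-δ/2) i)
    have hkey : (2 : ℝ) ^ (-(1 - E.δ / 2) * i') ≤
        2 * ((a : ℝ) ^ (1 - E.δ / 2) * 2 ^ (-(1 - E.δ / 2) * i)) := by
      have h7 : ((2 : ℝ) ^ (i : ℝ)) ^ (1 - E.δ / 2) ≤ (a * 2 ^ ((i' : ℝ) + 1)) ^ (1 - E.δ / 2) :=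
        Real.rpow_le_rpow (by positivity) h1R.le (by linarith)
      rw [Real.mul_rpow (by positivity) (by positivity), ← Real.rpow_mul (by norm_num),
        ← Real.rpow_mul (by norm_num)] at h7
      have e1 : (2 : ℝ) ^ (-(1 - E.δ / 2) * (i' : ℝ)) =
          2 ^ ((i : ℝ) * (1 - E.δ / 2)) * 2 ^ (-(1 - E.δ / 2) * i' - (i : ℝ) * (1 - E.δ / 2)) := by
        rw [← Real.rpow_add (by norm_num)]; congr 1; ring
      rw [e1]
      calc (2 : ℝ) ^ ((i : ℝ) * (1 - E.δ / 2)) *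
            2 ^ (-(1 - E.δ / 2) * i' - (i : ℝ) * (1 - E.δ / 2))
          ≤ ((a : ℝ) ^ (1 - E.δ / 2) * 2 ^ (((i' : ℝ) + 1) * (1 - E.δ / 2))) *
            2 ^ (-(1 - E.δ / 2) * i' - (i : ℝ) * (1 - E.δ / 2)) :=
            mul_le_mul_of_nonneg_right h7 (by positivity)
        _ = (2 : ℝ) ^ (1 - E.δ / 2) * ((a : ℝ) ^ (1 - E.δ / 2) * 2 ^ (-(1 - E.δ / 2) * i)) := by
            have e2 : (2 : ℝ) ^ (((i' : ℝ) + 1) * (1 - E.δ / 2)) *
                2 ^ (-(1 - E.δ / 2) * i' - (i : ℝ) * (1 - E.δ / 2)) =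
                (2 : ℝ) ^ (1 - E.δ / 2) * 2 ^ (-(1 - E.δ / 2) * i) := by
              rw [← Real.rpow_add (by norm_num), ← Real.rpow_add (by norm_num)]; congr 1; ring
            rw [mul_assoc, e2]; ring
        _ ≤ 2 * ((a : ℝ) ^ (1 - E.δ / 2) * 2 ^ (-(1 - E.δ / 2) * i)) := by
            apply mul_le_mul_of_nonneg_right _ (by positivity)
            calc (2 : ℝ) ^ (1 - E.δ / 2) ≤ 2 ^ (1 : ℝ) :=
                  Real.rpow_le_rpow_of_exponent_le (by norm_num) (by linarith)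
              _ = 2 := Real.rpow_one 2
    have hpow : 1 / (i' : ℝ) ^ 40 ≤ 2 ^ 40 / (i : ℝ) ^ 40 := by
      rw [div_le_div_iff₀ (by positivity) (by positivity), one_mul, ← mul_pow]
      exact pow_le_pow_left₀ (by positivity) (by linarith) 40
    calc E.w i' * (2 * i' / (E.cH * hh E.δ i')) * (E.CB * ((hh E.δ i / a + 1 : ℕ) : ℝ) / i')
        = E.w i' / hh E.δ i' * (2 * E.CB / E.cH) * ((hh E.δ i / a + 1 : ℕ) : ℝ) := by
          have : (i' : ℝ) ≠ 0 := by positivity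
          field_simp
      _ ≤ E.w i' / hh E.δ i' * (2 * E.CB / E.cH) * (2 * ((hh E.δ i : ℝ) / a)) := by
          apply mul_le_mul_of_nonneg_left hL2
          positivity
      _ ≤ E.w i' / 2 ^ ((1 / 2 - E.δ) * i' - 1) * (2 * E.CB / E.cH) *
            (2 * (2 ^ ((1 / 2 - E.δ) * i) / a)) := by
          gcongr
      _ = (8 * E.CB / E.cH) * ((1 / (i' : ℝ) ^ 40) * (2 ^ (-(1 - E.δ / 2) * i') *
            (2 ^ ((1 / 2 - E.δ) * i) / a))) := by
          unfold Env.w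
          have e3 : (2 : ℝ) ^ (-(1 / 2 + E.δ / 2) * (i' : ℝ)) / 2 ^ ((1 / 2 - E.δ) * i' - 1) =
              2 * 2 ^ (-(1 - E.δ / 2) * i') := by
            rw [← Real.rpow_sub (by norm_num)]
            have : (2 : ℝ) * 2 ^ (-(1 - E.δ / 2) * (i' : ℝ)) =
                2 ^ (1 + -(1 - E.δ / 2) * (i' : ℝ)) := by
              rw [Real.rpow_add (by norm_num), Real.rpow_one]
            rw [this]; congr 1; ring
          calc _ = ((2 : ℝ) ^ (-(1 / 2 + E.δ / 2) * (i' : ℝ)) / 2 ^ ((1 / 2 - E.δ) * i' - 1)) *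
              (1 / (i' : ℝ) ^ 40) * (2 * E.CB / E.cH) * (2 * (2 ^ ((1 / 2 - E.δ) * i) / a)) := by
                ring
            _ = _ := by rw [e3]; ring
      _ ≤ (8 * E.CB / E.cH) * ((2 ^ 40 / (i : ℝ) ^ 40) *
            ((2 * ((a : ℝ) ^ (1 - E.δ / 2) * 2 ^ (-(1 - E.δ / 2) * i))) *
            (2 ^ ((1 / 2 - E.δ) * i) / a))) := by
          gcongr
      _ = 2 ^ 44 * E.CB / E.cH * E.w i * (a : ℝ) ^ (-E.δ / 2) := by
          unfold Env.w
          have e4 : (2 : ℝ) ^ (-(1 - E.δ / 2) * (i : ℝ)) * 2 ^ ((1 / 2 - E.δ) * i) =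
              2 ^ (-(1 / 2 + E.δ / 2) * (i : ℝ)) := by
            rw [← Real.rpow_add (by norm_num)]; congr 1; ring
          have e5 : (a : ℝ) ^ (1 - E.δ / 2) / a = (a : ℝ) ^ (-E.δ / 2) := by
            rw [← Real.rpow_sub_one (by positivity)]; congr 1; ring
          calc _ = 2 ^ 44 * E.CB / E.cH * (((2 : ℝ) ^ (-(1 - E.δ / 2) * (i : ℝ)) *
                2 ^ ((1 / 2 - E.δ) * i)) / (i : ℝ) ^ 40) * ((a : ℝ) ^ (1 - E.δ / 2) / a) := by ring
            _ = _ := by rw [e4, e5]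

end Pool.Agent.W326.MO
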