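import Pool.Agent.W326.MO.HA2

/-!
# MP_a187e6_nt, task HA: assembly
-/

set_option autoImplicit false

namespace Pool.Agent.W326.MO

open Finset Filter Topology Pool.Agent.W76.MO
open scoped Classical

variable (E : Env)

theorem w_pos {i : ℕ} (hi : 1 ≤ i) : 0 < E.w i := by unfold Env.w; positivity

theorem Sa_le {JH j i k a : ℕ} (hJ : ∀ j : ℕ, JH ≤ j → ∀ i : ℕ, j ≤ i → ∀ k ∈ E.Bad i,
    E.cH / 2 * hh E.δ i / i ≤ ((E.Host j i k).card : ℝ)) (hj : JH ≤ j) (hj1 : E.i₁ ≤ j)
    (hj10 : 10 ≤ j) (hji : j ≤ i) (hk : k < nc E.δ i) (ha : 1 ≤ a) :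
    ∑ i' ∈ (range (2 * i + 3)).filter (fun i' : ℕ => j ≤ i' ∧ (1 - E.τ) * i ≤ (i' : ℝ)),
      ∑ k' ∈ E.Bad i', E.w i' / ((E.Host j i' k').card : ℝ) *
        (((E.Host j i' k').filter (fun n₁ => a * n₁ ∈ cell E.δ i k)).card : ℝ) ≤
      2 ^ 45 * E.CB / E.cH * E.w i * (a : ℝ) ^ (-E.δ / 2) := by
  have hcH := E.hcH
  have hCB := E.hCB
  have hwi := w_pos E (i := i) (by omega)
  set B : ℝ := 2 ^ 44 * E.CB / E.cH * E.w i * (a : ℝ) ^ (-E.δ / 2) with hB
  have haR : (0 : ℝ) < a := by exact_mod_cast ha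
  have hB0 : 0 ≤ B := by rw [hB]; positivity
  set T : Finset ℕ := {i - Nat.log 2 a, i - Nat.log 2 a - 1} with hT
  have hcard : T.card ≤ 2 := Finset.card_le_two
  have hmain : ∀ i' ∈ (range (2 * i + 3)).filter (fun i' : ℕ => j ≤ i' ∧ (1 - E.τ) * i ≤ (i' : ℝ)),
      ∑ k' ∈ E.Bad i', E.w i' / ((E.Host j i' k').card : ℝ) *
        (((E.Host j i' k').filter (fun n₁ => a * n₁ ∈ cell E.δ i k)).card : ℝ) ≤
      if i' ∈ T then B else 0 := by
    intro i' hi'
    rw [Finset.mem_filter] at hi'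
    obtain ⟨-, hji', hi'τ⟩ := hi'
    by_cases hex : ∃ k' ∈ E.Bad i', ∃ n₁ ∈ E.Host j i' k', a * n₁ ∈ cell E.δ i k
    · obtain ⟨k₀, hk₀, n₀, hn₀, hc₀⟩ := hex
      obtain ⟨h1, h2⟩ := scales E hk hk₀ ha hn₀ hc₀
      have hmem : i' ∈ T := by
        rw [hT, Finset.mem_insert, Finset.mem_singleton]
        exact two_scales ha h1 h2
      rw [if_pos hmem]
      obtain ⟨h3, h4⟩ := one_scale E ha (by omega) h1 h2 hi'τ
      have h5 := count_le E (j := j) (i := i) (k := k) (hj1.trans hji') ha h3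
      refine le_trans ?_ h4
      have hi'0 : (0 : ℝ) < i' := by
        have : 0 < i' := by omega
        exact_mod_cast this
      have hh0 : (0 : ℝ) < hh E.δ i' := by exact_mod_cast hh_pos E.δ i'
      have hw := w_pos E (i := i') (by omega)
      calc ∑ k' ∈ E.Bad i', E.w i' / ((E.Host j i' k').card : ℝ) *
            (((E.Host j i' k').filter (fun n₁ => a * n₁ ∈ cell E.δ i k)).card : ℝ)
          ≤ ∑ k' ∈ E.Bad i', E.w i' * (2 * i' / (E.cH * hh E.δ i')) *
            (((E.Host j i' k').filter (fun n₁ => a * n₁ ∈ cell E.δ i k)).card : ℝ) := by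
            apply Finset.sum_le_sum
            intro k' hk'
            apply mul_le_mul_of_nonneg_right _ (Nat.cast_nonneg _)
            have h6 := hJ j hj i' hji' k' hk'
            have h7 : 0 < E.cH / 2 * hh E.δ i' / i' := by positivity
            rw [div_eq_mul_inv]
            apply mul_le_mul_of_nonneg_left _ hw.le
            have h8 : (2 * i' / (E.cH * hh E.δ i') : ℝ) = (E.cH / 2 * hh E.δ i' / i')⁻¹ := by
              field_simp
            rw [h8]
            exact inv_anti₀ h7 h6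
        _ = E.w i' * (2 * i' / (E.cH * hh E.δ i')) *
            ((∑ k' ∈ E.Bad i', ((E.Host j i' k').filter
              (fun n₁ => a * n₁ ∈ cell E.δ i k)).card : ℕ) : ℝ) := by
            rw [← Finset.mul_sum]; push_cast; rfl
        _ ≤ E.w i' * (2 * i' / (E.cH * hh E.δ i')) *
            (E.CB * ((hh E.δ i / a + 1 : ℕ) : ℝ) / i') :=
            mul_le_mul_of_nonneg_left h5 (by positivity)
    · have h0 : ∑ k' ∈ E.Bad i', E.w i' / ((E.Host j i' k').card : ℝ) *
        (((E.Host j i' k').filter (fun n₁ => a * n₁ ∈ cell E.δ i k)).card : ℝ) = 0 := by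
        apply Finset.sum_eq_zero
        intro k' hk'
        have : (E.Host j i' k').filter (fun n₁ => a * n₁ ∈ cell E.δ i k) = ∅ := by
          rw [Finset.filter_eq_empty_iff]
          intro n₁ hn₁ hc
          exact hex ⟨k', hk', n₁, hn₁, hc⟩
        rw [this]; simp
      rw [h0]
      split_ifs
      · exact hB0
      · exact le_rfl
  refine (Finset.sum_le_sum hmain).trans ?_
  rw [Finset.sum_ite_mem, Finset.sum_const, nsmul_eq_mul]
  have hc2 : (((range (2 * i + 3)).filter
      (fun i' : ℕ => j ≤ i' ∧ (1 - E.τ) * i ≤ (i' : ℝ)) ∩ T).card : ℝ) ≤ 2 := by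
    have := (Finset.card_le_card (Finset.inter_subset_right (s₁ := (range (2 * i + 3)).filter
      (fun i' : ℕ => j ≤ i' ∧ (1 - E.τ) * i ≤ (i' : ℝ))) (s₂ := T))).trans hcard
    exact_mod_cast this
  calc _ ≤ 2 * B := mul_le_mul_of_nonneg_right hc2 hB0
    _ = _ := by rw [hB]; ring

/-- the sum over the pairs with `n = a n₁` -/
theorem HT_le {j R i k i' k' : ℕ} (hgu0 : ∀ p, 0 ≤ E.gu j p) (hgh0 : ∀ p, 0 ≤ E.gh j p)
    (hgu : ∀ p, E.gu j p ≠ 0 → E.U j p) (hgh : ∀ p, E.gh j p ≠ 0 → E.H j p)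
    (hk : k < nc E.δ i) (hk' : k' ∈ E.Bad i') (hi' : 1 ≤ i') :
    E.HT j R i k i' k' (fun a b => a ∣ b) ≤ (if i' = i ∧ k' = k then E.w i else 0) +
      ∑ a ∈ (Icc 2 (2 ^ (i + 1))).filter (fun t => Squarefree t ∧ Rough R t),
        E.E2 j a / a * (E.w i' / ((E.Host j i' k').card : ℝ) *
        (((E.Host j i' k').filter (fun n₁ => a * n₁ ∈ cell E.δ i k)).card : ℝ)) := by
  have hw := w_pos E hi'
  set c : ℝ := E.w i' / ((E.Host j i' k').card : ℝ) with hc
  have hc0 : 0 ≤ c := by rw [hc]; positivity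
  set S : Finset (ℕ × ℕ) := ((E.Host j i' k') ×ˢ (E.cs R i k)).filter (fun u : ℕ × ℕ =>
      lp u.1 ∣ u.2 ∧ (2 : ℝ) ^ (1 / 20 * (i : ℝ)) < lp u.1 ∧ u.1 ∣ u.2) with hS
  have hSmem : ∀ u ∈ S, u.1 ∈ E.Host j i' k' ∧ u.2 ∈ cell E.δ i k ∧ Squarefree u.2 ∧
      Rough R u.2 ∧ u.1 ∣ u.2 := by
    intro u hu
    rw [hS, Finset.mem_filter, Finset.mem_product] at hu
    have h1 := hu.1.2
    unfold Env.cs at h1
    rw [Finset.mem_filter] at h1
    exact ⟨hu.1.1, h1.1, h1.2.1, h1.2.2, hu.2.2.2⟩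
  have e0 : E.HT j R i k i' k' (fun a b => a ∣ b) =
      ∑ u ∈ S, c * (E.E2 j (u.2 / u.1) / ((u.2 / u.1 : ℕ) : ℝ)) := by
    unfold Env.HT
    apply Finset.sum_congr
    · rw [hS]
      ext u
      simp only [Finset.mem_filter]
    intro u hu
    obtain ⟨h1, h2, h3, h4, h5⟩ := hSmem u hu
    rw [← term_eq hgu hgh h1 h3 h5, ← hc]; ring
  rw [e0, ← Finset.sum_filter_add_sum_filter_not S (fun u => u.1 = u.2)]
  apply add_le_add
  · -- the diagonal
    by_cases hd : i' = i ∧ k' = k
    · rw [if_pos hd]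
      have h1 : ∑ u ∈ S.filter (fun u => u.1 = u.2),
          c * (E.E2 j (u.2 / u.1) / ((u.2 / u.1 : ℕ) : ℝ)) =
          ((S.filter (fun u => u.1 = u.2)).card : ℝ) * c := by
        rw [← nsmul_eq_mul, ← Finset.sum_const]
        apply Finset.sum_congr rfl
        intro u hu
        rw [Finset.mem_filter] at hu
        obtain ⟨h1, h2, h3, h4, h5⟩ := hSmem u hu.1
        have h6 : 0 < u.1 := by
          rw [hu.2]; exact Nat.pos_of_ne_zero h3.ne_zero
        rw [← hu.2, Nat.div_self h6]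
        unfold Env.E2
        simp
      rw [h1]
      have h2 : (S.filter (fun u => u.1 = u.2)).card ≤ (E.Host j i' k').card := by
        apply Finset.card_le_card_of_injOn (fun u => u.1)
        · intro u hu
          have hu' := Finset.mem_filter.mp (Finset.mem_coe.mp hu)
          exact (hSmem u hu'.1).1
        · intro u hu v hv huv
          have hu' := Finset.mem_filter.mp (Finset.mem_coe.mp hu)
          have hv' := Finset.mem_filter.mp (Finset.mem_coe.mp hv)
          simp only at huv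
          exact Prod.ext huv (by rw [← hu'.2, ← hv'.2]; exact huv)
      have h3 : ((E.Host j i' k').card : ℝ) * c ≤ E.w i' := by
        rw [hc]
        rcases Nat.eq_zero_or_pos (E.Host j i' k').card with h | h
        · rw [h]; simp; exact hw.le
        · have : ((E.Host j i' k').card : ℝ) ≠ 0 := by positivity
          rw [mul_div_cancel₀ _ this]
      have h4 : ((S.filter (fun u => u.1 = u.2)).card : ℝ) ≤ ((E.Host j i' k').card : ℝ) := by
        exact_mod_cast h2
      calc _ ≤ ((E.Host j i' k').card : ℝ) * c := mul_le_mul_of_nonneg_right h4 hc0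
        _ ≤ E.w i' := h3
        _ = E.w i := by rw [hd.1]
    · rw [if_neg hd]
      have : S.filter (fun u => u.1 = u.2) = ∅ := by
        rw [Finset.filter_eq_empty_iff]
        intro u hu he
        obtain ⟨h1, h2, h3, h4, h5⟩ := hSmem u hu
        have hcell := (mem_host h1).1
        have hk2 : k' < nc E.δ i' := by
          unfold Env.Bad at hk'
          rw [Finset.mem_filter, Finset.mem_range] at hk'
          exact hk'.1
        have h6 := cell_bounds hk2 hcell
        have h7 := cell_bounds hk h2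
        rw [he] at h6 hcell
        have h8 := scale_unique h6 h7
        subst h8
        exact hd ⟨rfl, cell_disj hcell h2⟩
      rw [this]; simp
  · -- proper multiples
    have hmaps : ∀ u ∈ S.filter (fun u => ¬ u.1 = u.2),
        u.2 / u.1 ∈ (Icc 2 (2 ^ (i + 1))).filter (fun t => Squarefree t ∧ Rough R t) := by
      intro u hu
      rw [Finset.mem_filter] at hu
      obtain ⟨h1, h2, h3, h4, h5⟩ := hSmem u hu.1
      obtain ⟨a, ha⟩ := h5
      have h20 : u.2 ≠ 0 := h3.ne_zero
      have h10 : 0 < u.1 := by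
        rcases Nat.eq_zero_or_pos u.1 with h | h
        · rw [h, zero_mul] at ha; exact absurd ha h20
        · exact h
      have hq : u.2 / u.1 = a := by rw [ha]; exact Nat.mul_div_cancel_left _ h10
      have ha0 : a ≠ 0 := by
        intro h; rw [h, mul_zero] at ha; exact h20 ha
      have ha1 : a ≠ 1 := by
        intro h; rw [h, mul_one] at ha; exact hu.2 ha.symm
      rw [hq, Finset.mem_filter, Finset.mem_Icc]
      have hdvd : a ∣ u.2 := ⟨u.1, by rw [ha]; ring⟩
      refine ⟨⟨by omega, ?_⟩, h3.squarefree_of_dvd hdvd, ?_⟩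
      · exact (Nat.le_of_dvd (Nat.pos_of_ne_zero h20) hdvd).trans (cell_bounds hk h2).2
      · intro p hp hpa
        exact h4 p hp (hpa.trans hdvd)
    rw [← Finset.sum_fiberwise_of_maps_to hmaps]
    apply Finset.sum_le_sum
    intro a ha
    have h1 : ∑ u ∈ (S.filter (fun u => ¬ u.1 = u.2)).filter (fun u => u.2 / u.1 = a),
        c * (E.E2 j (u.2 / u.1) / ((u.2 / u.1 : ℕ) : ℝ)) =
        (((S.filter (fun u => ¬ u.1 = u.2)).filter (fun u => u.2 / u.1 = a)).card : ℝ) *
          (c * (E.E2 j a / a)) := by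
      rw [← nsmul_eq_mul, ← Finset.sum_const]
      apply Finset.sum_congr rfl
      intro u hu
      rw [Finset.mem_filter] at hu
      rw [hu.2]
    rw [h1]
    have h2 : ((S.filter (fun u => ¬ u.1 = u.2)).filter (fun u => u.2 / u.1 = a)).card ≤
        ((E.Host j i' k').filter (fun n₁ => a * n₁ ∈ cell E.δ i k)).card := by
      apply Finset.card_le_card_of_injOn (fun u => u.1)
      · intro u hu
        have hu' := Finset.mem_filter.mp (Finset.mem_coe.mp hu)
        have hu'' := Finset.mem_filter.mp hu'.1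
        obtain ⟨g1, g2, g3, g4, g5⟩ := hSmem u hu''.1
        refine Finset.mem_coe.mpr (Finset.mem_filter.mpr ⟨g1, ?_⟩)
        rw [← hu'.2, Nat.div_mul_cancel g5]
        exact g2
      · intro u hu v hv huv
        have hu' := Finset.mem_filter.mp (Finset.mem_coe.mp hu)
        have hv' := Finset.mem_filter.mp (Finset.mem_coe.mp hv)
        have hu'' := Finset.mem_filter.mp hu'.1
        have hv'' := Finset.mem_filter.mp hv'.1
        simp only at huv
        have g1 := (hSmem u hu''.1).2.2.2.2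
        have g2 := (hSmem v hv''.1).2.2.2.2
        refine Prod.ext huv ?_
        rw [← Nat.div_mul_cancel g1, ← Nat.div_mul_cancel g2, hu'.2, hv'.2, huv]
    have h3 : (((S.filter (fun u => ¬ u.1 = u.2)).filter (fun u => u.2 / u.1 = a)).card : ℝ) ≤
        (((E.Host j i' k').filter (fun n₁ => a * n₁ ∈ cell E.δ i k)).card : ℝ) := by
      exact_mod_cast h2
    have hE : 0 ≤ E.E2 j a / a := div_nonneg (E2_nonneg hgu0 hgh0 a) (Nat.cast_nonneg _)
    calc _ ≤ (((E.Host j i' k').filter (fun n₁ => a * n₁ ∈ cell E.δ i k)).card : ℝ) *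
          (c * (E.E2 j a / a)) := mul_le_mul_of_nonneg_right h3 (mul_nonneg hc0 hE)
      _ = _ := by ring

/-- **task HA** -/
theorem task_HA : T_HA := by
  intro E hHC hGB hES
  obtain ⟨JH, hJH⟩ := hHC
  obtain ⟨JG, hJG1, hJG⟩ := hGB
  have hcH := E.hcH
  have hCB := E.hCB
  set K : ℝ := 2 ^ 45 * E.CB / E.cH with hK
  have hK0 : 0 < K := by rw [hK]; positivity
  obtain ⟨R₀, hR₀⟩ := hES (1 / (64 * K)) (by positivity)
  refine ⟨R₀, fun R hR => ?_⟩
  obtain ⟨JE, hJE⟩ := hR₀ R hR
  refine ⟨JH + JG + JE + E.i₁ + 10, fun j hj i k hji hk => ?_⟩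
  obtain ⟨-, hgu0, hgh0, hgu, hgh, -⟩ := hJG j (by omega)
  have hgh' : ∀ p, E.gh j p ≠ 0 → E.H j p := fun p hp => (hgh p hp).1
  have hES' := hJE j (by omega) (2 ^ (i + 1))
  set F := (range (2 * i + 3)).filter (fun i' : ℕ => j ≤ i' ∧ (1 - E.τ) * i ≤ (i' : ℝ)) with hF
  set A := (Icc 2 (2 ^ (i + 1))).filter (fun t => Squarefree t ∧ Rough R t) with hA
  have hwi := w_pos E (i := i) (by omega)
  have hstep : ∑ i' ∈ F, ∑ k' ∈ E.Bad i', E.HT j R i k i' k' (fun a b => a ∣ b) ≤
      ∑ i' ∈ F, ∑ k' ∈ E.Bad i', ((if i' = i ∧ k' = k then E.w i else 0) +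
      ∑ a ∈ A, E.E2 j a / a * (E.w i' / ((E.Host j i' k').card : ℝ) *
        (((E.Host j i' k').filter (fun n₁ => a * n₁ ∈ cell E.δ i k)).card : ℝ))) := by
    apply Finset.sum_le_sum
    intro i' hi'
    rw [hF, Finset.mem_filter] at hi'
    apply Finset.sum_le_sum
    intro k' hk'
    exact HT_le E hgu0 hgh0 hgu hgh' hk hk' (by omega)
  refine hstep.trans ?_
  simp only [Finset.sum_add_distrib]
  apply add_le_add
  · -- diagonal
    have h1 : ∀ i' ∈ F, ∑ k' ∈ E.Bad i', (if i' = i ∧ k' = k then E.w i else 0) ≤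
        if i' = i then (if k ∈ E.Bad i then E.w i else 0) else 0 := by
      intro i' _
      by_cases h : i' = i
      · subst h
        simp only [true_and, if_true]
        rw [Finset.sum_ite_eq']
      · simp [h]
    refine (Finset.sum_le_sum h1).trans ?_
    rw [Finset.sum_ite_eq']
    split_ifs
    · exact le_rfl
    · exact le_rfl
    · exact hwi.le
    · exact le_rfl
  · have h2 : ∑ i' ∈ F, ∑ k' ∈ E.Bad i', ∑ a ∈ A, E.E2 j a / a *
        (E.w i' / ((E.Host j i' k').card : ℝ) *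
        (((E.Host j i' k').filter (fun n₁ => a * n₁ ∈ cell E.δ i k)).card : ℝ)) =
        ∑ a ∈ A, E.E2 j a / a * ∑ i' ∈ F, ∑ k' ∈ E.Bad i',
        (E.w i' / ((E.Host j i' k').card : ℝ) *
        (((E.Host j i' k').filter (fun n₁ => a * n₁ ∈ cell E.δ i k)).card : ℝ)) := by
      have h3 : ∀ i' ∈ F, ∑ k' ∈ E.Bad i', ∑ a ∈ A, E.E2 j a / a *
        (E.w i' / ((E.Host j i' k').card : ℝ) *
        (((E.Host j i' k').filter (fun n₁ => a * n₁ ∈ cell E.δ i k)).card : ℝ)) =
        ∑ a ∈ A, ∑ k' ∈ E.Bad i', E.E2 j a / a *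
        (E.w i' / ((E.Host j i' k').card : ℝ) *
        (((E.Host j i' k').filter (fun n₁ => a * n₁ ∈ cell E.δ i k)).card : ℝ)) :=
        fun i' _ => Finset.sum_comm
      rw [Finset.sum_congr rfl h3, Finset.sum_comm]
      apply Finset.sum_congr rfl
      intro a _
      rw [Finset.mul_sum]
      apply Finset.sum_congr rfl
      intro i' _
      rw [Finset.mul_sum]
    rw [h2]
    calc _ ≤ ∑ a ∈ A, E.E2 j a / a * (K * E.w i * (a : ℝ) ^ (-E.δ / 2)) := by
          apply Finset.sum_le_sum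
          intro a ha
          rw [hA, Finset.mem_filter, Finset.mem_Icc] at ha
          apply mul_le_mul_of_nonneg_left
          · exact Sa_le E hJH (by omega) (by omega) (by omega) hji hk (by omega)
          · exact div_nonneg (E2_nonneg hgu0 hgh0 a) (Nat.cast_nonneg _)
      _ = K * E.w i * ∑ a ∈ A, E.E2 j a / a * (a : ℝ) ^ (-E.δ / 2) := by
          rw [Finset.mul_sum]
          apply Finset.sum_congr rfl
          intro a _
          ring
      _ ≤ K * E.w i * (1 / (64 * K)) := mul_le_mul_of_nonneg_left hES' (by positivity)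
      _ = E.w i / 64 := by field_simp

end Pool.Agent.W326.MO
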